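import Pool.Agent.Q82.QD.Stm
import Pool.Agent.Q62.QC_MASS

/-! Project QD, job MM (helper204 for helper82). -/

set_option autoImplicit false

open MeasureTheory Filter Topology Real Set
open Pool.Agent.Q82.QC (E bd mass mass_deriv mass_finrank mass_ball)
open Pool.Agent.Q82.QD

namespace Pool.Agent.Q204.QD

theorem mm_up (F : ℝ → ℝ) (hF : Prof F) (s : ℝ) (hs : 0 ≤ s) :
    6 * Real.exp (4 * F s) ≤ 96 / (1 + s) ^ 4 * Real.exp (-(4 * (qq * s))) := by
  have h1 : (0 : ℝ) < 1 + s := by linarith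
  have h2 : 4 * F s ≤ 4 * Real.log 2 - 4 * Real.log (1 + s) + -(4 * (qq * s)) := by
    have := hF.2.2 s hs
    linarith
  have h3 : Real.exp (4 * F s) ≤ 16 / (1 + s) ^ 4 * Real.exp (-(4 * (qq * s))) := by
    calc Real.exp (4 * F s) ≤ Real.exp (4 * Real.log 2 - 4 * Real.log (1 + s) + -(4 * (qq * s))) :=
          Real.exp_le_exp.2 h2
      _ = _ := by
        rw [Real.exp_add, Real.exp_sub]
        have e1 : Real.exp (4 * Real.log 2) = 16 := by
          rw [show (4 : ℝ) * Real.log 2 = ((4 : ℕ) : ℝ) * Real.log 2 by norm_num, Real.exp_nat_mul,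
            Real.exp_log two_pos]
          norm_num
        have e2 : Real.exp (4 * Real.log (1 + s)) = (1 + s) ^ 4 := by
          rw [show (4 : ℝ) * Real.log (1 + s) = ((4 : ℕ) : ℝ) * Real.log (1 + s) by norm_num,
            Real.exp_nat_mul, Real.exp_log h1]
        rw [e1, e2]
  calc 6 * Real.exp (4 * F s) ≤ 6 * (16 / (1 + s) ^ 4 * Real.exp (-(4 * (qq * s)))) := by linarith
    _ = _ := by ring

theorem bd1 (y : E) : bd 1 y = 96 / (1 + ‖y‖ ^ 2) ^ 4 := by
  unfold bd
  norm_num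

theorem mm_le (F : ℝ → ℝ) (hF : Prof F) (y : E) : 6 * Real.exp (4 * F (‖y‖ ^ 2)) ≤ bd 1 y := by
  refine (mm_up F hF _ (by positivity)).trans ?_
  rw [bd1]
  have h : Real.exp (-(4 * (qq * ‖y‖ ^ 2))) ≤ 1 := by
    apply Real.exp_le_one_iff.2
    unfold qq
    nlinarith [sq_nonneg ‖y‖]
  calc 96 / (1 + ‖y‖ ^ 2) ^ 4 * Real.exp (-(4 * (qq * ‖y‖ ^ 2))) ≤ 96 / (1 + ‖y‖ ^ 2) ^ 4 * 1 := by
        gcongr
    _ = _ := mul_one _

theorem mm_lt (F : ℝ → ℝ) (hF : Prof F) (y : E) (hy : y ≠ 0) :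
    6 * Real.exp (4 * F (‖y‖ ^ 2)) < bd 1 y := by
  refine (mm_up F hF _ (by positivity)).trans_lt ?_
  rw [bd1]
  have h0 : 0 < ‖y‖ ^ 2 := by positivity
  have h : Real.exp (-(4 * (qq * ‖y‖ ^ 2))) < 1 := by
    apply Real.exp_lt_one_iff.2
    unfold qq
    nlinarith
  calc 96 / (1 + ‖y‖ ^ 2) ^ 4 * Real.exp (-(4 * (qq * ‖y‖ ^ 2))) < 96 / (1 + ‖y‖ ^ 2) ^ 4 * 1 :=
        mul_lt_mul_of_pos_left h (by positivity)
    _ = _ := mul_one _

theorem mm_low (h1 : S_LOW) (F : ℝ → ℝ) (hF : Prof F) (y : E) (hy : ‖y‖ ≤ √2) :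
    79 / 100 * bd 1 y ≤ 6 * Real.exp (4 * F (‖y‖ ^ 2)) := by
  set s := ‖y‖ ^ 2 with hs
  have hs0 : 0 ≤ s := by positivity
  have hs2 : s ≤ 2 := by
    have := pow_le_pow_left₀ (norm_nonneg y) hy 2
    rwa [Real.sq_sqrt (by norm_num)] at this
  have h2 := h1 F hF s hs0
  have h3 : (0 : ℝ) < 1 + s := by linarith
  have h4 : Real.exp (3 * s) ≤ 410 := by
    have e1 : Real.exp (3 * s) ≤ Real.exp 6 := Real.exp_le_exp.2 (by linarith)
    have e2 : Real.exp 6 = Real.exp 1 ^ 6 := by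
      rw [← Real.exp_nat_mul]
      norm_num
    have e3 : Real.exp 1 < 2.7182818286 := Real.exp_one_lt_d9
    have e4 : Real.exp 1 ^ 6 ≤ 2.7182818286 ^ 6 := pow_le_pow_left₀ (Real.exp_pos 1).le e3.le 6
    have e5 : (2.7182818286 : ℝ) ^ 6 ≤ 410 := by norm_num
    linarith
  have h5 : 4 * Real.log 2 - 4 * Real.log (1 + s) + -(21 / 100) ≤ 4 * F s := by
    have : qq * Real.exp (3 * s) ≤ qq * 410 := by
      apply mul_le_mul_of_nonneg_left h4
      unfold qq
      norm_num
    have h6 : qq * 410 ≤ 21 / 400 := by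
      unfold qq
      norm_num
    linarith
  have h6 : Real.exp (4 * Real.log 2 - 4 * Real.log (1 + s) + -(21 / 100)) ≤ Real.exp (4 * F s) :=
    Real.exp_le_exp.2 h5
  have e1 : Real.exp (4 * Real.log 2) = 16 := by
    rw [show (4 : ℝ) * Real.log 2 = ((4 : ℕ) : ℝ) * Real.log 2 by norm_num, Real.exp_nat_mul,
      Real.exp_log two_pos]
    norm_num
  have e2 : Real.exp (4 * Real.log (1 + s)) = (1 + s) ^ 4 := by
    rw [show (4 : ℝ) * Real.log (1 + s) = ((4 : ℕ) : ℝ) * Real.log (1 + s) by norm_num,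
      Real.exp_nat_mul, Real.exp_log h3]
  rw [Real.exp_add, Real.exp_sub, e1, e2] at h6
  have h7 : (79 : ℝ) / 100 ≤ Real.exp (-(21 / 100)) := by
    have := Real.add_one_le_exp (-(21 / 100) : ℝ)
    linarith
  have h8 : 16 / (1 + s) ^ 4 * (79 / 100) ≤ 16 / (1 + s) ^ 4 * Real.exp (-(21 / 100)) := by
    apply mul_le_mul_of_nonneg_left h7
    positivity
  rw [bd1, ← hs]
  calc 79 / 100 * (96 / (1 + s) ^ 4) = 6 * (16 / (1 + s) ^ 4 * (79 / 100)) := by ring
    _ ≤ _ := by linarith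

theorem mm_ball : ∫ y in Metric.closedBall (0 : E) (√2), bd 1 y = 320 / 27 * π ^ 2 := by
  rw [← integral_indicator Metric.isClosed_closedBall.measurableSet]
  have e : (Metric.closedBall (0 : E) (√2)).indicator (bd 1) =
      fun z : E => (fun r : ℝ => (Iic (√2)).indicator (fun r => 96 / (1 + r ^ 2) ^ 4) r) ‖z‖ := by
    funext z
    by_cases hz : ‖z‖ ≤ √2
    · rw [indicator_of_mem (by simpa using hz)]
      simp only
      rw [indicator_of_mem (by simpa using hz), bd1]
    · rw [indicator_of_notMem (by simpa using hz)]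
      simp only
      rw [indicator_of_notMem (by simpa using hz)]
  rw [e, integral_fun_norm_addHaar (volume : Measure E)
      (fun r : ℝ => (Iic (√2)).indicator (fun r => 96 / (1 + r ^ 2) ^ 4) r), mass_finrank, mass_ball]
  have e2 : ∀ r : ℝ, r ^ (4 - 1) • (Iic (√2)).indicator (fun r => 96 / (1 + r ^ 2) ^ 4) r =
      (Iic (√2)).indicator (fun r => r ^ 3 * (96 * 1 ^ 4 / (1 ^ 2 + r ^ 2) ^ 4)) r := by
    intro r
    by_cases hr : r ∈ Iic (√2)
    · rw [indicator_of_mem hr, indicator_of_mem hr]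
      simp
    · rw [indicator_of_notMem hr, indicator_of_notMem hr]
      simp
  simp only [e2]
  rw [setIntegral_indicator measurableSet_Iic, Ioi_inter_Iic,
    ← intervalIntegral.integral_of_le (Real.sqrt_nonneg 2),
    intervalIntegral.integral_eq_sub_of_hasDerivAt (fun r _ => mass_deriv one_pos r)]
  · have h2 : √2 ^ 2 = 2 := Real.sq_sqrt (by norm_num)
    simp only [h2]
    norm_num
    ring
  · apply Continuous.intervalIntegrable
    apply (continuous_pow 3).mul
    apply continuous_const.div (by fun_prop)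
    intro r
    positivity

theorem mm1 (h1 : S_LOW) : S_MM := by
  intro F hF
  obtain ⟨hbi, hbm⟩ := mass 1 one_pos
  have hc : Continuous (fun y : E => 6 * Real.exp (4 * F (‖y‖ ^ 2))) :=
    continuous_const.mul (Real.continuous_exp.comp (continuous_const.mul
      (hF.1.comp (continuous_norm.pow 2))))
  have hi : Integrable (fun y : E => 6 * Real.exp (4 * F (‖y‖ ^ 2))) := by
    refine hbi.mono' hc.aestronglyMeasurable (Eventually.of_forall fun y => ?_)
    rw [Real.norm_eq_abs, abs_of_nonneg (by positivity)]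
    exact mm_le F hF y
  refine ⟨hi, ?_, ?_⟩
  · have h2 : ∫ y in Metric.closedBall (0 : E) (√2), 79 / 100 * bd 1 y ≤
        ∫ y in Metric.closedBall (0 : E) (√2), 6 * Real.exp (4 * F (‖y‖ ^ 2)) := by
      apply setIntegral_mono_on (hbi.const_mul _).integrableOn hi.integrableOn
        Metric.isClosed_closedBall.measurableSet
      intro y hy
      exact mm_low h1 F hF y (by simpa using hy)
    have h3 : ∫ y in Metric.closedBall (0 : E) (√2), 6 * Real.exp (4 * F (‖y‖ ^ 2)) ≤ mm F := by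
      apply setIntegral_le_integral hi
      exact Eventually.of_forall fun y => by positivity
    rw [integral_const_mul, mm_ball] at h2
    have hpi : 0 < π ^ 2 := by positivity
    nlinarith
  · have h2 : 0 < ∫ y : E, (bd 1 y - 6 * Real.exp (4 * F (‖y‖ ^ 2))) := by
      rw [integral_pos_iff_support_of_nonneg (fun y => sub_nonneg.2 (mm_le F hF y)) (hbi.sub hi)]
      have hsub : ({0}ᶜ : Set E) ⊆
          Function.support (fun y : E => bd 1 y - 6 * Real.exp (4 * F (‖y‖ ^ 2))) := by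
        intro y hy
        rw [Function.mem_support]
        exact (sub_pos.2 (mm_lt F hF y hy)).ne'
      refine lt_of_lt_of_le ?_ (measure_mono hsub)
      exact isOpen_compl_singleton.measure_pos volume ⟨x0, by simp [x0]⟩
    rw [integral_sub hbi hi, hbm] at h2
    have : mm F = ∫ y : E, 6 * Real.exp (4 * F (‖y‖ ^ 2)) := rfl
    linarith

end Pool.Agent.Q204.QD
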