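import Pool.Agent.Q82.QD.Stm

/-! Project QD, job PP (helper204 for helper82). -/

set_option autoImplicit false

open MeasureTheory Filter Topology Real InnerProductSpace Laplacian Set
open Pool.Agent.Q82.QC (E)
open Pool.Agent.Q82.QD

namespace Pool.Agent.Q204.QD

/-- the coordinates -/
noncomputable def pr (i : Fin 4) : E →L[ℝ] ℝ := EuclideanSpace.proj i

theorem pr_apply (i : Fin 4) (x : E) : pr i x = x i := rfl

theorem hpr (i : Fin 4) (x : E) : HasFDerivAt (fun x : E => x i) (pr i) x :=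
  (pr i).hasFDerivAt

theorem sq' {f : E → ℝ} {f' : E →L[ℝ] ℝ} {x : E} (h : HasFDerivAt f f' x) :
    HasFDerivAt (fun x => f x ^ 2) ((2 * f x) • f') x := by
  have h1 := h.mul h
  refine (h1.congr_fderiv ?_).congr_of_eventuallyEq (Eventually.of_forall fun y => ?_)
  · ext v
    simp
    ring
  · simp [pow_two]

theorem mul' {f g : E → ℝ} {f' g' : E →L[ℝ] ℝ} {x : E} (h : HasFDerivAt f f' x)
    (h2 : HasFDerivAt g g' x) : HasFDerivAt (fun x => f x * g x) (f x • g' + g x • f') x :=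
  h.mul h2

theorem lap_coord (f : E → ℝ) (g : Fin 4 → E → ℝ) (h : Fin 4 → Fin 4 → E → ℝ)
    (h1 : ∀ x, HasFDerivAt f (∑ i, g i x • pr i) x)
    (h2 : ∀ i x, HasFDerivAt (g i) (∑ j, h i j x • pr j) x) (x : E) :
    Δ f x = ∑ i, h i i x := by
  have e1 : fderiv ℝ f = fun x => ∑ i, g i x • pr i := by
    funext y
    exact (h1 y).fderiv
  have e2 : HasFDerivAt (fun x => ∑ i, g i x • pr i)
      (∑ i, (∑ j, h i j x • pr j).smulRight (pr i)) x := by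
    apply HasFDerivAt.fun_sum
    intro i _
    exact (h2 i x).smul_const (pr i)
  have e3 : fderiv ℝ (fderiv ℝ f) x = ∑ i, (∑ j, h i j x • pr j).smulRight (pr i) := by
    rw [e1]
    exact e2.fderiv
  rw [laplacian_eq_iteratedFDeriv_orthonormalBasis _ (EuclideanSpace.basisFun (Fin 4) ℝ)]
  simp only [iteratedFDeriv_two_apply, Matrix.cons_val_zero, Matrix.cons_val_one, e3]
  simp [pr_apply, Fin.sum_univ_four]

/-- first derivatives of `PP` -/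
noncomputable def g1 : Fin 4 → E → ℝ :=
  ![fun x => 4 * x 0 * (x 0 ^ 2 + x 1 ^ 2) - 4 * x 0,
    fun x => 4 * x 1 * (x 0 ^ 2 + x 1 ^ 2) + 4 * x 1,
    fun x => -(4 * x 2 * (x 2 ^ 2 + x 3 ^ 2)) + 8 * x 2,
    fun x => -(4 * x 3 * (x 2 ^ 2 + x 3 ^ 2)) + 8 * x 3]

/-- second derivatives of `PP` -/
noncomputable def g2 : Fin 4 → Fin 4 → E → ℝ :=
  ![![fun x => 12 * x 0 ^ 2 + 4 * x 1 ^ 2 - 4, fun x => 8 * x 0 * x 1, fun _ => 0, fun _ => 0],
    ![fun x => 8 * x 0 * x 1, fun x => 12 * x 1 ^ 2 + 4 * x 0 ^ 2 + 4, fun _ => 0, fun _ => 0],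
    ![fun _ => 0, fun _ => 0, fun x => -(12 * x 2 ^ 2 + 4 * x 3 ^ 2) + 8, fun x => -(8 * x 2 * x 3)],
    ![fun _ => 0, fun _ => 0, fun x => -(8 * x 2 * x 3), fun x => -(12 * x 3 ^ 2 + 4 * x 2 ^ 2) + 8]]

theorem PP_deriv (x : E) : HasFDerivAt PP (∑ i, g1 i x • pr i) x := by
  have a0 := hpr 0 x
  have a1 := hpr 1 x
  have a2 := hpr 2 x
  have a3 := hpr 3 x
  have h := ((((sq' ((sq' a0).fun_add (sq' a1))).fun_sub
    (((sq' a0).fun_sub (sq' a1)).const_mul 2)).fun_add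
      (hasFDerivAt_const (1 : ℝ) x)).fun_sub (sq' ((sq' a2).fun_add (sq' a3)))).fun_add
        (((sq' a2).fun_add (sq' a3)).const_mul 4)
  refine h.congr_fderiv ?_
  ext v
  simp [g1, Fin.sum_univ_four, pr_apply]
  ring

theorem g1_deriv (i : Fin 4) (x : E) : HasFDerivAt (g1 i) (∑ j, g2 i j x • pr j) x := by
  have a0 := hpr 0 x
  have a1 := hpr 1 x
  have a2 := hpr 2 x
  have a3 := hpr 3 x
  fin_cases i
  · have h := (mul' (a0.const_mul 4) ((sq' a0).fun_add (sq' a1))).fun_sub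
      (a0.const_mul 4)
    refine h.congr_fderiv ?_
    ext v
    simp [g2, Fin.sum_univ_four, pr_apply]
    ring
  · have h := (mul' (a1.const_mul 4) ((sq' a0).fun_add (sq' a1))).fun_add
      (a1.const_mul 4)
    refine h.congr_fderiv ?_
    ext v
    simp [g2, Fin.sum_univ_four, pr_apply]
    ring
  · have h := (mul' (a2.const_mul 4) ((sq' a2).fun_add (sq' a3))).fun_neg.fun_add
      (a2.const_mul 8)
    refine h.congr_fderiv ?_
    ext v
    simp [g2, Fin.sum_univ_four, pr_apply]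
    ring
  · have h := (mul' (a3.const_mul 4) ((sq' a2).fun_add (sq' a3))).fun_neg.fun_add
      (a3.const_mul 8)
    refine h.congr_fderiv ?_
    ext v
    simp [g2, Fin.sum_univ_four, pr_apply]
    ring

theorem lapPP (x : E) : Δ PP x = 16 * (x 0 ^ 2 + x 1 ^ 2) - 16 * (x 2 ^ 2 + x 3 ^ 2) + 16 := by
  rw [lap_coord PP g1 g2 PP_deriv g1_deriv x]
  simp [g2, Fin.sum_univ_four]
  ring

theorem lap2PP (x : E) : Δ (Δ PP) x = 0 := by
  have e : (Δ PP : E → ℝ) = fun x => 16 * (x 0 ^ 2 + x 1 ^ 2) - 16 * (x 2 ^ 2 + x 3 ^ 2) + 16 := by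
    funext y
    exact lapPP y
  rw [e, lap_coord _ ![fun x => 32 * x 0, fun x => 32 * x 1, fun x => -(32 * x 2), fun x => -(32 * x 3)]
    ![![fun _ => 32, fun _ => 0, fun _ => 0, fun _ => 0], ![fun _ => 0, fun _ => 32, fun _ => 0, fun _ => 0],
      ![fun _ => 0, fun _ => 0, fun _ => -32, fun _ => 0], ![fun _ => 0, fun _ => 0, fun _ => 0, fun _ => -32]]
      ?_ ?_ x]
  · simp [Fin.sum_univ_four]
  · intro x
    have a0 := hpr 0 x
    have a1 := hpr 1 x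
    have a2 := hpr 2 x
    have a3 := hpr 3 x
    have h := ((((sq' a0).fun_add (sq' a1)).const_mul 16).fun_sub
      (((sq' a2).fun_add (sq' a3)).const_mul 16)).fun_add (hasFDerivAt_const (16 : ℝ) x)
    refine h.congr_fderiv ?_
    ext v
    simp [Fin.sum_univ_four, pr_apply]
    ring
  · intro i x
    have a0 := hpr 0 x
    have a1 := hpr 1 x
    have a2 := hpr 2 x
    have a3 := hpr 3 x
    fin_cases i
    · refine (a0.const_mul 32).congr_fderiv ?_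
      ext v
      simp [Fin.sum_univ_four, pr_apply]
    · refine (a1.const_mul 32).congr_fderiv ?_
      ext v
      simp [Fin.sum_univ_four, pr_apply]
    · refine (a2.const_mul 32).fun_neg.congr_fderiv ?_
      ext v
      simp [Fin.sum_univ_four, pr_apply]
    · refine (a3.const_mul 32).fun_neg.congr_fderiv ?_
      ext v
      simp [Fin.sum_univ_four, pr_apply]

theorem nsq (x : E) : ‖x‖ ^ 2 = x 0 ^ 2 + x 1 ^ 2 + x 2 ^ 2 + x 3 ^ 2 := by
  rw [EuclideanSpace.norm_sq_eq, Fin.sum_univ_four]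
  simp

theorem nsq0 (x : E) : ‖x - x0‖ ^ 2 = (x 0 - 1) ^ 2 + x 1 ^ 2 + x 2 ^ 2 + x 3 ^ 2 := by
  rw [nsq]
  simp [x0]

theorem nsq1 (x : E) : ‖x - x1‖ ^ 2 = (x 0 + 1) ^ 2 + x 1 ^ 2 + x 2 ^ 2 + x 3 ^ 2 := by
  rw [nsq]
  simp [x1]

theorem PP_eq (x : E) : PP x = ((x 0 - 1) ^ 2 + x 1 ^ 2) * ((x 0 + 1) ^ 2 + x 1 ^ 2) +
    (x 2 ^ 2 + x 3 ^ 2) * (4 - (x 2 ^ 2 + x 3 ^ 2)) := by
  unfold PP
  ring

theorem pp1 : S_PP := by
  refine ⟨?_, lap2PP, ?_, ?_, ?_⟩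
  · intro n
    have h : ∀ i : Fin 4, ContDiff ℝ n (fun x : E => x i) := fun i => (pr i).contDiff
    unfold PP
    exact ((((((h 0).pow 2).add ((h 1).pow 2)).pow 2).sub (contDiff_const.mul
      (((h 0).pow 2).sub ((h 1).pow 2)))).add contDiff_const).sub ((((h 2).pow 2).add ((h 3).pow 2)).pow 2)
        |>.add (contDiff_const.mul (((h 2).pow 2).add ((h 3).pow 2)))
  · intro x hx h0
    have hn : ‖x‖ ^ 2 ≤ 25 / 9 := by
      have := pow_le_pow_left₀ (norm_nonneg x) hx 2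
      norm_num at this
      linarith
    rw [nsq] at hn
    rw [nsq0, PP_eq]
    have h1 : 1 ≤ (x 0 + 1) ^ 2 + x 1 ^ 2 := by nlinarith [sq_nonneg (x 1), sq_nonneg (x 0)]
    have h2 : ((x 0 - 1) ^ 2 + x 1 ^ 2) * 1 ≤ ((x 0 - 1) ^ 2 + x 1 ^ 2) * ((x 0 + 1) ^ 2 + x 1 ^ 2) :=
      mul_le_mul_of_nonneg_left h1 (by positivity)
    have h3 : (x 2 ^ 2 + x 3 ^ 2) * 1 ≤ (x 2 ^ 2 + x 3 ^ 2) * (4 - (x 2 ^ 2 + x 3 ^ 2)) :=
      mul_le_mul_of_nonneg_left (by nlinarith [sq_nonneg (x 1), sq_nonneg (x 0)]) (by positivity)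
    linarith
  · intro x hx h0
    have hn : ‖x‖ ^ 2 ≤ 25 / 9 := by
      have := pow_le_pow_left₀ (norm_nonneg x) hx 2
      norm_num at this
      linarith
    rw [nsq] at hn
    rw [nsq1, PP_eq]
    have h1 : 1 ≤ (x 0 - 1) ^ 2 + x 1 ^ 2 := by nlinarith [sq_nonneg (x 1), sq_nonneg (x 0)]
    have h2 : 1 * ((x 0 + 1) ^ 2 + x 1 ^ 2) ≤ ((x 0 - 1) ^ 2 + x 1 ^ 2) * ((x 0 + 1) ^ 2 + x 1 ^ 2) :=
      mul_le_mul_of_nonneg_right h1 (by positivity)
    have h3 : (x 2 ^ 2 + x 3 ^ 2) * 1 ≤ (x 2 ^ 2 + x 3 ^ 2) * (4 - (x 2 ^ 2 + x 3 ^ 2)) :=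
      mul_le_mul_of_nonneg_left (by nlinarith [sq_nonneg (x 1), sq_nonneg (x 0)]) (by positivity)
    linarith
  · intro x hx
    set ρ := ‖x - x0‖ with hρ
    have hρ0 : 0 ≤ ρ := norm_nonneg _
    have hsq : ρ ^ 2 = (x 0 - 1) ^ 2 + x 1 ^ 2 + x 2 ^ 2 + x 3 ^ 2 := nsq0 x
    set a := (x 0 - 1) ^ 2 + x 1 ^ 2 with ha
    set w := x 2 ^ 2 + x 3 ^ 2 with hw
    have ha0 : 0 ≤ a := by positivity
    have hw0 : 0 ≤ w := by positivity
    have hs : ρ ^ 2 = a + w := by rw [hsq]; ring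
    have e : PP x - 4 * ρ ^ 2 = 4 * a * (x 0 - 1) + (a ^ 2 - w ^ 2) := by
      rw [hs, PP_eq, ← hw, ha]
      ring
    rw [e]
    have h1 : |x 0 - 1| ≤ ρ := by
      apply abs_le_of_sq_le_sq _ hρ0
      nlinarith [sq_nonneg (x 1)]
    have h2 : |4 * a * (x 0 - 1)| ≤ 4 * ρ ^ 3 := by
      rw [abs_mul, abs_of_nonneg (by positivity : (0 : ℝ) ≤ 4 * a)]
      calc 4 * a * |x 0 - 1| ≤ 4 * ρ ^ 2 * ρ := by
            apply mul_le_mul (by linarith) h1 (abs_nonneg _) (by positivity)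
        _ = 4 * ρ ^ 3 := by ring
    have h3 : |a ^ 2 - w ^ 2| ≤ ρ ^ 3 := by
      have h4 : |a ^ 2 - w ^ 2| ≤ (ρ ^ 2) ^ 2 := by
        rw [abs_le, hs]
        constructor
        · nlinarith
        · nlinarith
      refine h4.trans ?_
      calc (ρ ^ 2) ^ 2 = ρ ^ 3 * ρ := by ring
        _ ≤ ρ ^ 3 * 1 := by gcongr
        _ = ρ ^ 3 := mul_one _
    calc |4 * a * (x 0 - 1) + (a ^ 2 - w ^ 2)| ≤ |4 * a * (x 0 - 1)| + |a ^ 2 - w ^ 2| := abs_add_le _ _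
      _ ≤ 5 * ρ ^ 3 := by linarith

end Pool.Agent.Q204.QD
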